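import Pool.Agent.Y833.SD.C12c

set_option autoImplicit false
set_option linter.unusedSectionVars false

/-!
# Job C12 of project SD (owner helper258): second order bias, neighbouring levels
-/

namespace Pool.Agent.Y833.SD

open Finset Pool.Agent.H470D4 Pool.Agent.Y258
open Pool.Agent.H935R2.PS (La uu nn dl mx Suit)

open Classical in
theorem C12 (hA6 : St_A6a) (hA8 : St_A8) : St_C12 := by
  intro n
  obtain ⟨C6, hC6, h6⟩ := hA6 (n+1)
  obtain ⟨C8, h8⟩ := hA8 n
  refine ⟨max 3 (max (4*C8) ⌈C6⌉₊), ?_⟩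
  intro q _ hS hCq M B c hc K0 K7 hK7 hK0 hK0' ω r b l l' hl hl' hne he hE
  set C := max 3 (max (4*C8) ⌈C6⌉₊) with hCdef
  have c1 : 3 ≤ C := le_max_left _ _
  have c2 : 4 * C8 ≤ C := (le_max_left _ _).trans (le_max_right _ _)
  have c3 : C6 ≤ (C:ℝ) := (Nat.le_ceil _).trans (by exact_mod_cast (le_max_right _ _).trans (le_max_right _ _))
  have hl1 := mem_IL.1 hl
  have hl2 := mem_IL.1 hl'
  have hD1 : 1 ≤ dm M B l r := by unfold dm; omega
  have hD2 : dm M B l r ≤ n + 2 := by unfold dm; omega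
  have hqB : (0:ℝ) ≤ (q:ℝ) ^ B := by positivity
  have hmain := sum_le hc (K0 := K0) hE hK7 hl hl' he
  refine hmain.trans ?_
  rw [add_comm, mul_add]
  refine add_le_add ?_ le_rfl
  set F0 := (univ : Finset (Option (Fin (n+2)) → ZMod q)).filter (fun H => H none ≠ 0) with hF0
  have hLa : (0:ℝ) ≤ (La q : ℝ) ^ (n+1) := by positivity
  by_cases hA : ∀ a, l a ≤ l' a
  · have h1 : ∑ H ∈ F0, wm H * ((q:ℝ) ^ dm M B l r * N2 c K0 ω r b l l' H) = 0 := by
      refine sum_eq_zero fun H hH => ?_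
      rw [N2_none hl' hA H (mem_filter.1 hH).2, mul_zero, mul_zero]
    rw [h1]
    positivity
  · push Not at hA
    obtain ⟨a0, ha0⟩ := hA
    by_cases hA1 : ∀ a, a ≠ a0 → l a ≤ l' a
    · -- one coordinate
      set F1 := (univ : Finset (Option (Fin (n + 2)) → ZMod q)).filter (fun H => H none ≠ 0 ∧
        H (some a0) = 0 ∧ ∀ c : ZMod q, c ≠ 0 → ¬ Bd (dm M B l r) K0 (fun o => c * H o)) with hF1
      have h1 : ∀ H ∈ F0, H ∉ F1 → wm H * ((q:ℝ) ^ dm M B l r * N2 c K0 ω r b l l' H) = 0 := by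
        intro H hH hH1
        rw [hF0, mem_filter] at hH
        rw [N2_zero_of, mul_zero, mul_zero]
        intro z hz
        apply hH1
        rw [hF1, mem_filter]
        exact ⟨mem_univ _, hH.2, Ev_zero hz ha0, fun s hs => Ev_bad hH.2 hz s hs⟩
      have hsub : F1 ⊆ F0 := by
        intro H hH
        rw [hF1, mem_filter] at hH
        rw [hF0, mem_filter]
        exact ⟨mem_univ _, hH.2.1⟩
      rw [← sum_subset hsub h1]
      have h8' := h8 q hS ((by omega : C8 ≤ C).trans hCq) (dm M B l r) K0 a0 hD1 hD2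
        ((Nat.mul_le_mul_right _ (by omega)).trans hK0) hK0'
      rw [← hF1] at h8'
      calc ∑ H ∈ F1, wm H * ((q:ℝ) ^ dm M B l r * N2 c K0 ω r b l l' H)
          ≤ ∑ H ∈ F1, wm H * ((q:ℝ) ^ B *
            (4 * min 1 (∑ s ∈ (univ : Finset (ZMod q)).filter (fun s => s ≠ 0),
              (2:ℝ) ^ (dm M B l r * La q) / 2 ^ (K0 + sz (fun o => s * H o))))) := by
            refine sum_le_sum fun H hH => ?_
            refine mul_le_mul_of_nonneg_left ?_ (wm_nonneg H)
            exact N2_one hc hE hK7 hl hl' he ha0 hA1 H (mem_filter.1 (hsub hH)).2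
        _ = (q:ℝ) ^ B * (4 * ∑ H ∈ F1, wm H *
            min 1 (∑ s ∈ (univ : Finset (ZMod q)).filter (fun s => s ≠ 0),
              (2:ℝ) ^ (dm M B l r * La q) / 2 ^ (K0 + sz (fun o => s * H o)))) := by
            rw [mul_sum, mul_sum]
            exact sum_congr rfl fun H _ => by ring
        _ ≤ (q:ℝ) ^ B * (4 * (C8 * (La q : ℝ) ^ (n+1))) := by
            refine mul_le_mul_of_nonneg_left ?_ hqB
            exact mul_le_mul_of_nonneg_left h8' (by norm_num)
        _ ≤ (q:ℝ) ^ B * (C * (La q : ℝ) ^ (n+1)) := by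
            refine mul_le_mul_of_nonneg_left ?_ hqB
            rw [← mul_assoc]
            refine mul_le_mul_of_nonneg_right ?_ hLa
            exact_mod_cast c2
    · -- two coordinates
      push Not at hA1
      obtain ⟨a1, hne1, ha1⟩ := hA1
      set F2 := (univ : Finset (Option (Fin (n + 2)) → ZMod q)).filter (fun H =>
        H (some a0) = 0 ∧ H (some a1) = 0) with hF2
      have h1 : ∀ H ∈ F0, wm H * ((q:ℝ) ^ dm M B l r * N2 c K0 ω r b l l' H) ≤
          (q:ℝ) ^ B * (if H ∈ F2 then wm H else 0) := by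
        intro H hH
        rw [hF0, mem_filter] at hH
        split_ifs with hm
        · rw [mul_comm ((q:ℝ) ^ B)]
          exact mul_le_mul_of_nonneg_left (N2_le hc hE hK7 hl H hH.2) (wm_nonneg H)
        · rw [N2_zero_of, mul_zero, mul_zero, mul_zero]
          intro z hz
          apply hm
          rw [hF2, mem_filter]
          exact ⟨mem_univ _, Ev_zero hz ha0, Ev_zero hz ha1⟩
      calc ∑ H ∈ F0, wm H * ((q:ℝ) ^ dm M B l r * N2 c K0 ω r b l l' H)
          ≤ ∑ H ∈ F0, (q:ℝ) ^ B * (if H ∈ F2 then wm H else 0) := sum_le_sum h1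
        _ = (q:ℝ) ^ B * ∑ H ∈ F0, (if H ∈ F2 then wm H else 0) := by rw [mul_sum]
        _ ≤ (q:ℝ) ^ B * ∑ H : Option (Fin (n + 2)) → ZMod q, (if H ∈ F2 then wm H else 0) := by
            refine mul_le_mul_of_nonneg_left ?_ hqB
            refine sum_le_univ_sum_of_nonneg fun H => ?_
            split_ifs
            · exact wm_nonneg H
            · exact le_rfl
        _ = (q:ℝ) ^ B * ∑ H ∈ F2, wm H := by
            rw [sum_ite_mem, univ_inter]
        _ ≤ (q:ℝ) ^ B * (C6 * (La q : ℝ) ^ (n+1)) := by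
            refine mul_le_mul_of_nonneg_left ?_ hqB
            exact sum_wm_two a0 a1 hne1.symm (fun ι _ _ hι => h6 q (c1.trans hCq) ι hι)
        _ ≤ (q:ℝ) ^ B * (C * (La q : ℝ) ^ (n+1)) := by
            refine mul_le_mul_of_nonneg_left ?_ hqB
            exact mul_le_mul_of_nonneg_right c3 hLa

end Pool.Agent.Y833.SD
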