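import Pool.Agent.Y833.SD.C12b

set_option autoImplicit false
set_option linter.unusedSectionVars false

/-!
# Job C12 of project SD (owner helper258): second order bias, neighbouring levels
-/

namespace Pool.Agent.Y833.SD

open Finset Pool.Agent.H470D4 Pool.Agent.Y258
open Pool.Agent.H935R2.PS (La uu nn dl mx Suit)

section pa
variable {q M B n : ℕ} [Fact q.Prime]

/-- the updated path -/
def Wz (M : ℕ) (ω : Pth q B) (r : ℕ) (b : Fin M) (z : Blk q B) : Pth q B :=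
  Function.update ω (r * M + (M - 1 - b)) z

open Classical in
/-- blocks with two relations -/
noncomputable def N1 (c : Flg q M B n) (ω : Pth q B) (r : ℕ) (b : Fin M) (l l' : Fin (n+2) → ℕ)
    (H H' : Option (Fin (n+2)) → ZMod q) : ℝ :=
  (((univ : Finset (Blk q B)).filter (fun z => Rel c (Wz M ω r b z) l r H ∧
    Rel c (Wz M ω r b z) l' r H')).card : ℝ)

/-- the event of a proportional short relation -/
def Ev (c : Flg q M B n) (K0 : ℕ) (ω : Pth q B) (r : ℕ) (b : Fin M) (l l' : Fin (n+2) → ℕ)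
    (H : Option (Fin (n+2)) → ZMod q) (z : Blk q B) : Prop :=
  Rel c (Wz M ω r b z) l r H ∧ Gd c K0 (Wz M ω r b z) l r ∧
    ∃ H' : Option (Fin (n+2)) → ZMod q, H' none ≠ 0 ∧ Bd (dm M B l' r) K0 H' ∧ OO l l' H H' = 0 ∧
      Rel c (Wz M ω r b z) l' r H'

open Classical in
/-- number of blocks with a proportional short relation -/
noncomputable def N2 (c : Flg q M B n) (K0 : ℕ) (ω : Pth q B) (r : ℕ) (b : Fin M)
    (l l' : Fin (n+2) → ℕ) (H : Option (Fin (n+2)) → ZMod q) : ℝ :=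
  (((univ : Finset (Blk q B)).filter (fun z => Ev c K0 ω r b l l' H z)).card : ℝ)

lemma N1_nonneg (c : Flg q M B n) (ω : Pth q B) (r : ℕ) (b : Fin M) (l l' : Fin (n+2) → ℕ)
    (H H' : Option (Fin (n+2)) → ZMod q) : 0 ≤ N1 c ω r b l l' H H' := Nat.cast_nonneg _

lemma N2_nonneg (c : Flg q M B n) (K0 : ℕ) (ω : Pth q B) (r : ℕ) (b : Fin M)
    (l l' : Fin (n+2) → ℕ) (H : Option (Fin (n+2)) → ZMod q) : 0 ≤ N2 c K0 ω r b l l' H :=
  Nat.cast_nonneg _

lemma N1_eq (c : Flg q M B n) (ω : Pth q B) (r : ℕ) (b : Fin M) (l l' : Fin (n+2) → ℕ)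
    (H H' : Option (Fin (n+2)) → ZMod q) : N1 c ω r b l l' H H' =
    ∑ z : Blk q B, ii (Rel c (Wz M ω r b z) l r H ∧ Rel c (Wz M ω r b z) l' r H') := by
  classical
  unfold N1 ii
  rw [card_filter]
  push_cast
  refine sum_congr rfl fun z _ => ?_
  split_ifs <;> rfl

lemma N2_eq (c : Flg q M B n) (K0 : ℕ) (ω : Pth q B) (r : ℕ) (b : Fin M)
    (l l' : Fin (n+2) → ℕ) (H : Option (Fin (n+2)) → ZMod q) : N2 c K0 ω r b l l' H =
    ∑ z : Blk q B, ii (Ev c K0 ω r b l l' H z) := by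
  classical
  unfold N2 ii
  rw [card_filter]
  push_cast
  refine sum_congr rfl fun z _ => ?_
  split_ifs <;> rfl

lemma AA_Wz (c : Flg q M B n) (ω : Pth q B) (r : ℕ) (b : Fin M) (z : Blk q B)
    (l : Fin (n+2) → ℕ) : AA c (Wz M ω r b z) l r = AA c ω l r :=
  AA_update c ω l (by omega) z

lemma OR_Wz (c : Flg q M B n) (ω : Pth q B) (r : ℕ) (b : Fin M) (z : Blk q B)
    (l : Fin (n+2) → ℕ) (O : Fin (n+2) → ZMod q) : OR c (Wz M ω r b z) l r O ↔ OR c ω l r O := by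
  unfold OR
  rw [AA_Wz]

/-- two relations which are not proportional -/
lemma N1_le {c : Flg q M B n} (hc : IsFlags c) {K7 r : ℕ} {b : Fin M} {ω : Pth q B}
    {l l' : Fin (n+2) → ℕ} (hE : Exc c ω r) (hK : 2 * n + 4 ≤ K7)
    (hl : l ∈ IL M B n K7 r b) (hl' : l' ∈ IL M B n K7 r b) (he : 1 ≤ dm M B (mxv l l') r)
    (H H' : Option (Fin (n+2)) → ZMod q) (hH : H none ≠ 0) (hH' : H' none ≠ 0) :
    (q:ℝ) ^ dm M B l r * N1 c ω r b l l' H H' ≤ (q:ℝ) ^ B *
      (ii (OR c ω (mxv l l') r (OO l l' H H')) * ((q:ℝ) ^ dm M B (mxv l l') r /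
        (q:ℝ) ^ dm M B l' r)) := by
  classical
  have hq0 : (0:ℝ) < q := by exact_mod_cast (Fact.out : q.Prime).pos
  by_cases hO : OR c ω (mxv l l') r (OO l l' H H')
  · rw [ii_true hO, one_mul]
    have h1 := card_Rel2 hc hl hl' (IL_sup_inf hc hE hK hl hl' he) H H' hH hH'
    have h2 := finrank_sup_eq hE l l'
    set fs := Module.finrank (ZMod q) (AA c ω l r ⊔ AA c ω l' r : Submodule _ _) with hfs
    have h3 : N1 c ω r b l l' H H' * (q:ℝ) ^ fs ≤ (q:ℝ) ^ B := by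
      unfold N1 Wz
      exact_mod_cast h1
    rw [mul_div_assoc', le_div_iff₀ (by positivity)]
    calc (q:ℝ) ^ dm M B l r * N1 c ω r b l l' H H' * (q:ℝ) ^ dm M B l' r
        = N1 c ω r b l l' H H' * (q:ℝ) ^ (dm M B l r + dm M B l' r) := by rw [pow_add]; ring
      _ = (N1 c ω r b l l' H H' * (q:ℝ) ^ fs) * (q:ℝ) ^ dm M B (mxv l l') r := by
          rw [← h2, pow_add]; ring
      _ ≤ (q:ℝ) ^ B * (q:ℝ) ^ dm M B (mxv l l') r :=
          mul_le_mul_of_nonneg_right h3 (by positivity)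
  · rw [ii_false hO]
    have h1 : N1 c ω r b l l' H H' = 0 := by
      unfold N1
      rw [Nat.cast_eq_zero, card_eq_zero, filter_eq_empty_iff]
      rintro z _ ⟨hz1, hz2⟩
      exact hO ((OR_Wz c ω r b z _ _).1 (Rel2_OR hz1 hz2))
    rw [h1]
    simp

/-- one relation -/
lemma N2_le {c : Flg q M B n} (hc : IsFlags c) {K0 K7 r : ℕ} {b : Fin M} {ω : Pth q B}
    {l l' : Fin (n+2) → ℕ} (hE : Exc c ω r) (hK : 2 * n + 4 ≤ K7)
    (hl : l ∈ IL M B n K7 r b) (H : Option (Fin (n+2)) → ZMod q) (hH : H none ≠ 0) :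
    (q:ℝ) ^ dm M B l r * N2 c K0 ω r b l l' H ≤ (q:ℝ) ^ B := by
  classical
  have h1 := card_Rel hc hE (by omega) hl H hH
  have h2 : N2 c K0 ω r b l l' H ≤ (((univ : Finset (Blk q B)).filter (fun z =>
      Rel c (Function.update ω (r * M + (M - 1 - b)) z) l r H)).card : ℝ) := by
    unfold N2
    refine Nat.cast_le.2 (card_le_card ?_)
    intro z hz
    rw [mem_filter] at hz ⊢
    exact ⟨hz.1, hz.2.1⟩
  have h3 : (((univ : Finset (Blk q B)).filter (fun z =>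
      Rel c (Function.update ω (r * M + (M - 1 - b)) z) l r H)).card : ℝ) *
      (q:ℝ) ^ dm M B l r = (q:ℝ) ^ B := by exact_mod_cast h1
  rw [← h3, mul_comm]
  exact mul_le_mul_of_nonneg_right h2 (by positivity)

/-- vanishing of the coordinates -/
lemma Ev_zero {c : Flg q M B n} {K0 r : ℕ} {b : Fin M} {ω : Pth q B}
    {l l' : Fin (n+2) → ℕ} {H : Option (Fin (n+2)) → ZMod q} {z : Blk q B}
    (h : Ev c K0 ω r b l l' H z) {a : Fin (n+2)} (ha : l' a < l a) : H (some a) = 0 := by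
  obtain ⟨_, _, H', hH', _, h0, _⟩ := h
  exact OO_lt hH' h0 ha

/-- no multiple is short -/
lemma Ev_bad {c : Flg q M B n} {K0 r : ℕ} {b : Fin M} {ω : Pth q B}
    {l l' : Fin (n+2) → ℕ} {H : Option (Fin (n+2)) → ZMod q} (hH : H none ≠ 0) {z : Blk q B}
    (h : Ev c K0 ω r b l l' H z) (s : ZMod q) (hs : s ≠ 0) :
    ¬ Bd (dm M B l r) K0 (fun o => s * H o) := by
  obtain ⟨h1, h2, _⟩ := h
  exact h2 _ (mul_ne_zero hs hH) (Rel_smul h1 s)

lemma N2_zero_of {c : Flg q M B n} {K0 r : ℕ} {b : Fin M} {ω : Pth q B}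
    {l l' : Fin (n+2) → ℕ} {H : Option (Fin (n+2)) → ZMod q}
    (h : ∀ z, ¬ Ev c K0 ω r b l l' H z) : N2 c K0 ω r b l l' H = 0 := by
  classical
  unfold N2
  rw [Nat.cast_eq_zero, card_eq_zero, filter_eq_empty_iff]
  intro z _
  exact h z

/-- no coordinate is larger -/
lemma N2_none {c : Flg q M B n} {K0 K7 r : ℕ} {b : Fin M} {ω : Pth q B}
    {l l' : Fin (n+2) → ℕ} (hl' : l' ∈ IL M B n K7 r b) (hle : ∀ a, l a ≤ l' a)
    (H : Option (Fin (n+2)) → ZMod q) (hH : H none ≠ 0) : N2 c K0 ω r b l l' H = 0 := by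
  apply N2_zero_of
  intro z h
  have h' := h
  obtain ⟨h1, h2, H', hH', hB, h0, h3⟩ := h
  have hl2 := mem_IL.1 hl'
  exact Ev_bad hH h' (rat H H') (rat_ne hH hH') (bad_of_le hH h0 hl2.2.2.2.1 hle hB)

/-- one coordinate is larger -/
lemma N2_one {c : Flg q M B n} (hc : IsFlags c) {K0 K7 r : ℕ} {b : Fin M} {ω : Pth q B}
    {l l' : Fin (n+2) → ℕ} (hE : Exc c ω r) (hK : 2 * n + 4 ≤ K7)
    (hl : l ∈ IL M B n K7 r b) (hl' : l' ∈ IL M B n K7 r b) (he : 1 ≤ dm M B (mxv l l') r)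
    {a0 : Fin (n+2)} (ha0 : l' a0 < l a0) (hle : ∀ a, a ≠ a0 → l a ≤ l' a)
    (H : Option (Fin (n+2)) → ZMod q) (hH : H none ≠ 0) :
    (q:ℝ) ^ dm M B l r * N2 c K0 ω r b l l' H ≤ (q:ℝ) ^ B *
      (4 * min 1 (∑ s ∈ (univ : Finset (ZMod q)).filter (fun s => s ≠ 0),
        (2:ℝ) ^ (dm M B l r * La q) / 2 ^ (K0 + sz (fun o => s * H o)))) := by
  classical
  have hq0 : (0:ℝ) < q := by exact_mod_cast (Fact.out : q.Prime).pos
  have hl1 := mem_IL.1 hl
  have hl2 := mem_IL.1 hl'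
  set δ := l a0 - l' a0 with hδ
  set D := dm M B l r with hD
  set X := ∑ s ∈ (univ : Finset (ZMod q)).filter (fun s => s ≠ 0),
        (2:ℝ) ^ (D * La q) / 2 ^ (K0 + sz (fun o => s * H o)) with hX
  have hX0 : 0 ≤ X := sum_nonneg fun s _ => by positivity
  have h1 : (q:ℝ) ^ D * N2 c K0 ω r b l l' H ≤ (q:ℝ) ^ B := N2_le hc hE hK hl H hH
  have h2 : (q:ℝ) ^ D * N2 c K0 ω r b l l' H ≤ (q:ℝ) ^ B * (4 * X) := by
    set 𝓗 := (univ : Finset (Option (Fin (n+2)) → ZMod q)).filter (fun H' => H' none ≠ 0 ∧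
      Bd (dm M B l' r) K0 H' ∧ OO l l' H H' = 0) with h𝓗
    have e1 : N2 c K0 ω r b l l' H ≤ ∑ H' ∈ 𝓗, N1 c ω r b l l' H H' := by
      rw [N2_eq]
      simp_rw [N1_eq]
      rw [sum_comm]
      refine sum_le_sum fun z _ => ?_
      by_cases hz : Ev c K0 ω r b l l' H z
      · obtain ⟨g1, g2, H', hH', hB, h0, g3⟩ := hz
        have hm : H' ∈ 𝓗 := by
          rw [h𝓗, mem_filter]
          exact ⟨mem_univ _, hH', hB, h0⟩
        refine (ii_le_one _).trans ?_
        rw [← ii_true (P := Rel c (Wz M ω r b z) l r H ∧ Rel c (Wz M ω r b z) l' r H') ⟨g1, g3⟩]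
        exact single_le_sum (f := fun H' => ii (Rel c (Wz M ω r b z) l r H ∧
          Rel c (Wz M ω r b z) l' r H')) (fun _ _ => ii_nonneg _) hm
      · rw [ii_false hz]
        exact sum_nonneg fun _ _ => ii_nonneg _
    have e2 : ∀ H' ∈ 𝓗, (q:ℝ) ^ D * N1 c ω r b l l' H H' ≤ (q:ℝ) ^ B * (1 / (q:ℝ) ^ δ) := by
      intro H' hH'
      rw [h𝓗, mem_filter] at hH'
      refine (N1_le hc hE hK hl hl' he H H' hH hH'.2.1).trans ?_
      refine mul_le_mul_of_nonneg_left ?_ (by positivity)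
      refine (mul_le_of_le_one_left (by positivity) (ii_le_one _)).trans (le_of_eq ?_)
      have e3 : dm M B l' r = dm M B (mxv l l') r + δ := by
        have s1 := Finset.add_sum_erase univ (mxv l l') (mem_univ a0)
        have s2 := Finset.add_sum_erase univ l' (mem_univ a0)
        have s3 : ∑ a ∈ univ.erase a0, mxv l l' a = ∑ a ∈ univ.erase a0, l' a :=
          sum_congr rfl fun a ha => max_eq_right (hle a (ne_of_mem_erase ha))
        have s4 : mxv l l' a0 = l a0 := max_eq_left ha0.le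
        unfold dm at he ⊢
        omega
      rw [e3, pow_add, div_mul_eq_div_div, div_self (by positivity)]
    have e4 : ((𝓗.card : ℕ) : ℝ) ≤ (2:ℝ) ^ (δ * La q) * (4 * X) := by
      refine (card_prop hH hl2.2.2.2.1 hl1.2.2.2.1 ha0 hle).trans (le_of_eq ?_)
      rw [hX, mul_sum, mul_sum]
      refine sum_congr rfl fun s _ => ?_
      rw [add_mul, pow_add]
      ring
    have e5 : (2:ℝ) ^ (δ * La q) ≤ (q:ℝ) ^ δ := by
      rw [mul_comm, pow_mul]
      exact pow_le_pow_left₀ (by positivity) (by exact_mod_cast two_pow_La_le) _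
    calc (q:ℝ) ^ D * N2 c K0 ω r b l l' H ≤ (q:ℝ) ^ D * ∑ H' ∈ 𝓗, N1 c ω r b l l' H H' :=
          mul_le_mul_of_nonneg_left e1 (by positivity)
      _ = ∑ H' ∈ 𝓗, (q:ℝ) ^ D * N1 c ω r b l l' H H' := by rw [mul_sum]
      _ ≤ ∑ H' ∈ 𝓗, (q:ℝ) ^ B * (1 / (q:ℝ) ^ δ) := sum_le_sum e2
      _ = (q:ℝ) ^ B * ((𝓗.card : ℝ) / (q:ℝ) ^ δ) := by
          rw [sum_const, nsmul_eq_mul]; ring
      _ ≤ (q:ℝ) ^ B * (4 * X) := by
          refine mul_le_mul_of_nonneg_left ?_ (by positivity)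
          rw [div_le_iff₀ (by positivity)]
          refine e4.trans ?_
          rw [mul_comm]
          exact mul_le_mul_of_nonneg_left e5 (by positivity)
  have hB0 : (0:ℝ) ≤ (q:ℝ) ^ B := by positivity
  rcases le_total 1 X with h | h
  · rw [min_eq_left h]
    linarith
  · rw [min_eq_right h]
    exact h2

open Classical in
/-- the pointwise majorant -/
lemma RR_le (c : Flg q M B n) (K0 : ℕ) (ω : Pth q B) (r : ℕ) (b : Fin M)
    (l l' : Fin (n+2) → ℕ) (z : Blk q B) :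
    RR c (Wz M ω r b z) l r * (ii (Gd c K0 (Wz M ω r b z) l r) *
       ii (¬ Gd c K0 (Wz M ω r b z) l' r)) ≤
    ∑ H ∈ (univ : Finset (Option (Fin (n+2)) → ZMod q)).filter (fun H => H none ≠ 0),
      (q:ℝ) ^ dm M B l r * wm H *
        (∑ H' ∈ (univ : Finset (Option (Fin (n+2)) → ZMod q)).filter
          (fun H' => H' none ≠ 0 ∧ Bd (dm M B l' r) K0 H'),
          ii (OO l l' H H' ≠ 0) * ii (Rel c (Wz M ω r b z) l r H ∧ Rel c (Wz M ω r b z) l' r H') +
        ii (Ev c K0 ω r b l l' H z)) := by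
  have hq0 : (0:ℝ) < q := by exact_mod_cast (Fact.out : q.Prime).pos
  unfold RR
  have e1 : (univ : Finset (Option (Fin (n+2)) → ZMod q)).filter
      (fun H => H none ≠ 0 ∧ Rel c (Wz M ω r b z) l r H) =
      ((univ : Finset (Option (Fin (n+2)) → ZMod q)).filter (fun H => H none ≠ 0)).filter
        (fun H => Rel c (Wz M ω r b z) l r H) := by
    rw [filter_filter]
  rw [e1, sum_filter, sum_mul]
  refine sum_le_sum fun H hH => ?_
  have hS0 : 0 ≤ ∑ H' ∈ (univ : Finset (Option (Fin (n+2)) → ZMod q)).filter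
          (fun H' => H' none ≠ 0 ∧ Bd (dm M B l' r) K0 H'),
          ii (OO l l' H H' ≠ 0) * ii (Rel c (Wz M ω r b z) l r H ∧ Rel c (Wz M ω r b z) l' r H') :=
    sum_nonneg fun _ _ => mul_nonneg (ii_nonneg _) (ii_nonneg _)
  have hw0 : 0 ≤ (q:ℝ) ^ dm M B l r * wm H := mul_nonneg (by positivity) (wm_nonneg H)
  have hR0 : 0 ≤ (q:ℝ) ^ dm M B l r * wm H *
        (∑ H' ∈ (univ : Finset (Option (Fin (n+2)) → ZMod q)).filter
          (fun H' => H' none ≠ 0 ∧ Bd (dm M B l' r) K0 H'),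
          ii (OO l l' H H' ≠ 0) * ii (Rel c (Wz M ω r b z) l r H ∧ Rel c (Wz M ω r b z) l' r H') +
        ii (Ev c K0 ω r b l l' H z)) := mul_nonneg hw0 (add_nonneg hS0 (ii_nonneg _))
  split_ifs with hR
  · by_cases hG : Gd c K0 (Wz M ω r b z) l r
    · by_cases hG' : Gd c K0 (Wz M ω r b z) l' r
      · rw [ii_false (not_not.2 hG'), mul_zero, mul_zero]
        exact hR0
      · refine mul_le_mul_of_nonneg_left ?_ hw0
        rw [ii_true hG, ii_true hG', one_mul]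
        unfold Gd at hG'
        push Not at hG'
        obtain ⟨H', g1, g2, g3⟩ := hG'
        have hm : H' ∈ (univ : Finset (Option (Fin (n+2)) → ZMod q)).filter
          (fun H' => H' none ≠ 0 ∧ Bd (dm M B l' r) K0 H') := by
          rw [mem_filter]
          exact ⟨mem_univ _, g1, g3⟩
        by_cases h0 : OO l l' H H' = 0
        · have h1 : Ev c K0 ω r b l l' H z := ⟨hR, hG, H', g1, g3, h0, g2⟩
          rw [ii_true h1]
          linarith
        · have h1 := single_le_sum (f := fun H' => ii (OO l l' H H' ≠ 0) *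
            ii (Rel c (Wz M ω r b z) l r H ∧ Rel c (Wz M ω r b z) l' r H'))
            (fun _ _ => mul_nonneg (ii_nonneg _) (ii_nonneg _)) hm
          rw [ii_true h0, ii_true (P := Rel c (Wz M ω r b z) l r H ∧
            Rel c (Wz M ω r b z) l' r H') ⟨hR, g2⟩] at h1
          have h2 := ii_nonneg (Ev c K0 ω r b l l' H z)
          linarith
    · rw [ii_false hG, zero_mul, mul_zero]
      exact hR0
  · rw [zero_mul]
    exact hR0

open Classical in
/-- the two parts of the correlation -/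
lemma sum_le {c : Flg q M B n} (hc : IsFlags c) {K0 K7 r : ℕ} {b : Fin M} {ω : Pth q B}
    {l l' : Fin (n+2) → ℕ} (hE : Exc c ω r) (hK : 2 * n + 4 ≤ K7)
    (hl : l ∈ IL M B n K7 r b) (hl' : l' ∈ IL M B n K7 r b) (he : 1 ≤ dm M B (mxv l l') r) :
    ∑ z : Blk q B, RR c (Wz M ω r b z) l r * (ii (Gd c K0 (Wz M ω r b z) l r) *
       ii (¬ Gd c K0 (Wz M ω r b z) l' r)) ≤
    (q:ℝ) ^ B * PP c K0 ω r l l' +
      ∑ H ∈ (univ : Finset (Option (Fin (n+2)) → ZMod q)).filter (fun H => H none ≠ 0),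
        wm H * ((q:ℝ) ^ dm M B l r * N2 c K0 ω r b l l' H) := by
  refine (sum_le_sum fun z _ => RR_le c K0 ω r b l l' z).trans ?_
  rw [sum_comm]
  have e1 : ∀ H ∈ (univ : Finset (Option (Fin (n+2)) → ZMod q)).filter (fun H => H none ≠ 0),
      ∑ z : Blk q B, (q:ℝ) ^ dm M B l r * wm H *
        (∑ H' ∈ (univ : Finset (Option (Fin (n+2)) → ZMod q)).filter
          (fun H' => H' none ≠ 0 ∧ Bd (dm M B l' r) K0 H'),
          ii (OO l l' H H' ≠ 0) * ii (Rel c (Wz M ω r b z) l r H ∧ Rel c (Wz M ω r b z) l' r H') +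
        ii (Ev c K0 ω r b l l' H z)) ≤
      (q:ℝ) ^ B * ∑ H' ∈ (univ : Finset (Option (Fin (n+2)) → ZMod q)).filter
          (fun H' => H' none ≠ 0 ∧ Bd (dm M B l' r) K0 H'),
          ii (OO l l' H H' ≠ 0 ∧ OR c ω (mxv l l') r (OO l l' H H')) *
            (wm H * (q:ℝ) ^ dm M B (mxv l l') r / (q:ℝ) ^ dm M B l' r) +
        wm H * ((q:ℝ) ^ dm M B l r * N2 c K0 ω r b l l' H) := by
    intro H hH
    rw [mem_filter] at hH
    rw [← mul_sum, sum_add_distrib, ← N2_eq, sum_comm, mul_add]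
    refine add_le_add ?_ (le_of_eq (by ring))
    rw [mul_sum, mul_sum]
    refine sum_le_sum fun H' hH' => ?_
    rw [mem_filter] at hH'
    rw [← mul_sum, ← N1_eq, ii_and]
    have h1 := N1_le hc hE hK hl hl' he H H' hH.2 hH'.2.1
    have h2 : 0 ≤ wm H * ii (OO l l' H H' ≠ 0) := mul_nonneg (wm_nonneg H) (ii_nonneg _)
    have h3 := mul_le_mul_of_nonneg_left h1 h2
    refine le_trans (le_of_eq ?_) (h3.trans (le_of_eq ?_))
    · ring
    · ring
  refine (sum_le_sum e1).trans (le_of_eq ?_)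
  rw [sum_add_distrib, ← mul_sum]
  rfl

end pa

end Pool.Agent.Y833.SD
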