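import Pool.Agent.Y258.SD.U

set_option autoImplicit false
set_option linter.unusedSectionVars false

/-!
# Job C12 of project SD (owner helper258): elementary part
-/

namespace Pool.Agent.Y833.SD

open Finset Pool.Agent.H470D4 Pool.Agent.Y258
open Pool.Agent.H935R2.PS (La uu nn dl mx Suit)

section el
variable {q : ℕ} [Fact q.Prime]

lemma dl_zero' : dl (0 : ZMod q) = 0 := by
  unfold dl nn
  simp

lemma nn_le' (x : ZMod q) : nn x ≤ q / 2 := ZMod.natAbs_valMinAbs_le x

lemma dl_le_La' (x : ZMod q) : dl x ≤ La q := by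
  unfold dl La
  exact Nat.log_mono_right ((nn_le' x).trans (Nat.div_le_self _ _))

open Classical in
/-- residues of bounded dyadic size -/
lemma card_dl_le (T : ℕ) :
    ((univ : Finset (ZMod q)).filter (fun x => dl x ≤ T)).card ≤ 4 * 2 ^ T := by
  have h1 : ((univ : Finset (ZMod q)).filter (fun x => dl x ≤ T)).card ≤
      (Finset.Ioo (-(2 ^ (T+1) : ℤ)) (2 ^ (T+1))).card := by
    refine Finset.card_le_card_of_injOn (fun x => x.valMinAbs) ?_ ?_
    · intro x hx
      have hx' : dl x ≤ T := (mem_filter.1 hx).2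
      have h2 : nn x < 2 ^ (T+1) := by
        unfold dl at hx'
        exact Nat.lt_pow_of_log_lt (by norm_num) (by omega)
      unfold nn at h2
      have h3 : (x.valMinAbs.natAbs : ℤ) < 2 ^ (T+1) := by exact_mod_cast h2
      rw [Int.natCast_natAbs] at h3
      simp only [coe_Ioo, Set.mem_Ioo]
      exact abs_lt.1 h3
    · intro x _ y _ hxy
      exact ZMod.injective_valMinAbs hxy
  refine h1.trans ?_
  rw [Int.card_Ioo]
  have : (0:ℤ) < 2 ^ (T+1) := by positivity
  have h4 : ((4 * 2 ^ T : ℕ) : ℤ) = 2 ^ (T+1) + 2 ^ (T+1) := by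
    push_cast
    rw [pow_succ]
    ring
  omega

lemma two_pow_La_le : 2 ^ La q ≤ q := by
  unfold La
  exact Nat.pow_log_le_self 2 (Fact.out : q.Prime).ne_zero

lemma one_le_mx' (x : ZMod q) : (1:ℝ) ≤ mx x := le_max_left _ _

lemma mx_zero' : mx (0 : ZMod q) = 1 := by
  unfold Pool.Agent.H935R2.PS.mx nn
  simp

open Classical in
/-- sum over the vectors with two vanishing coordinates -/
lemma sum_wm_two {n : ℕ} {C : ℝ} (a b : Fin (n+2)) (hab : a ≠ b)
    (hC : ∀ (ι : Type) [Fintype ι] [DecidableEq ι], Fintype.card ι = n + 1 →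
      ∑ h : ι → ZMod q, wm h ≤ C) :
    ∑ H ∈ (univ : Finset (Option (Fin (n+2)) → ZMod q)).filter
      (fun H => H (some a) = 0 ∧ H (some b) = 0), wm H ≤ C := by
  have hcard : Fintype.card {o : Option (Fin (n+2)) // o ≠ some a ∧ o ≠ some b} = n + 1 := by
    rw [Fintype.card_subtype]
    have : (univ.filter (fun o : Option (Fin (n+2)) => o ≠ some a ∧ o ≠ some b)) =
        (univ.erase (some a)).erase (some b) := by
      ext o
      simp only [mem_filter, mem_univ, true_and, mem_erase, ne_eq, and_true]
      tauto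
    rw [this, card_erase_of_mem, card_erase_of_mem (mem_univ _), card_univ, Fintype.card_option,
      Fintype.card_fin]
    · omega
    · rw [mem_erase]
      exact ⟨fun h => hab (Option.some.inj h).symm, mem_univ _⟩
  refine le_trans ?_ (hC {o : Option (Fin (n+2)) // o ≠ some a ∧ o ≠ some b} hcard)
  have hwm : ∀ H ∈ (univ : Finset (Option (Fin (n+2)) → ZMod q)).filter
      (fun H => H (some a) = 0 ∧ H (some b) = 0), wm H =
      wm (fun o : {o : Option (Fin (n+2)) // o ≠ some a ∧ o ≠ some b} => H o) := by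
    intro H hH
    rw [mem_filter] at hH
    unfold wm
    rw [← Finset.prod_subtype (univ.filter (fun o : Option (Fin (n+2)) => o ≠ some a ∧ o ≠ some b))
      (fun x => by simp) (fun o => 1 / mx (H o))]
    rw [Finset.prod_filter_of_ne]
    intro o _ ho
    constructor
    · rintro rfl
      apply ho
      rw [hH.2.1, mx_zero']; norm_num
    · rintro rfl
      apply ho
      rw [hH.2.2, mx_zero']; norm_num
  rw [sum_congr rfl hwm]
  refine le_trans (le_of_eq ?_) (Finset.sum_le_univ_sum_of_nonneg
    (s := ((univ : Finset (Option (Fin (n+2)) → ZMod q)).filter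
      (fun H => H (some a) = 0 ∧ H (some b) = 0)).image
      (fun H => (fun o : {o : Option (Fin (n+2)) // o ≠ some a ∧ o ≠ some b} => H o))) ?_)
  · rw [Finset.sum_image]
    intro H hH H' hH' hHH
    rw [coe_filter] at hH hH'
    have e1 := hH.2
    have e2 := hH'.2
    funext o
    by_cases h1 : o = some a
    · rw [h1, e1.1, e2.1]
    · by_cases h2 : o = some b
      · rw [h2, e1.2, e2.2]
      · exact congrFun hHH ⟨o, h1, h2⟩
  · intro h
    exact wm_nonneg h

end el

end Pool.Agent.Y833.SD
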