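import Pool.Agent.Y833.SD.C12a

set_option autoImplicit false
set_option linter.unusedSectionVars false

/-!
# Job C12 of project SD (owner helper258): proportional relations
-/

namespace Pool.Agent.Y833.SD

open Finset Pool.Agent.H470D4 Pool.Agent.Y258
open Pool.Agent.H935R2.PS (La uu nn dl mx Suit)

section el
variable {q M B n : ℕ} [Fact q.Prime]

/-- the ratio of the row coefficients -/
noncomputable def rat (H H' : Option (Fin (n+2)) → ZMod q) : ZMod q := H' none * (H none)⁻¹

lemma rat_ne {H H' : Option (Fin (n+2)) → ZMod q} (hg : H none ≠ 0) (hg' : H' none ≠ 0) :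
    rat H H' ≠ 0 := mul_ne_zero hg' (inv_ne_zero hg)

lemma rat_none {H H' : Option (Fin (n+2)) → ZMod q} (hg : H none ≠ 0) :
    rat H H' * H none = H' none := by
  unfold rat
  rw [mul_assoc, inv_mul_cancel₀ hg, mul_one]

lemma OO_lt {l l' : Fin (n+2) → ℕ} {H H' : Option (Fin (n+2)) → ZMod q} (hg' : H' none ≠ 0)
    (h0 : OO l l' H H' = 0) {a : Fin (n+2)} (ha : l' a < l a) : H (some a) = 0 := by
  have h1 := congrFun h0 a
  unfold OO at h1
  rw [if_pos ha.le, if_neg (by omega)] at h1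
  simp only [Pi.zero_apply, mul_zero, sub_zero] at h1
  exact (mul_eq_zero.1 h1).resolve_left hg'

lemma OO_gt {l l' : Fin (n+2) → ℕ} {H H' : Option (Fin (n+2)) → ZMod q} (hg : H none ≠ 0)
    (h0 : OO l l' H H' = 0) {a : Fin (n+2)} (ha : l a < l' a) : H' (some a) = 0 := by
  have h1 := congrFun h0 a
  unfold OO at h1
  rw [if_neg (by omega), if_pos ha.le] at h1
  simp only [Pi.zero_apply, mul_zero, zero_sub, neg_eq_zero] at h1
  exact (mul_eq_zero.1 h1).resolve_left hg

lemma OO_eq {l l' : Fin (n+2) → ℕ} {H H' : Option (Fin (n+2)) → ZMod q} (hg : H none ≠ 0)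
    (h0 : OO l l' H H' = 0) {a : Fin (n+2)} (ha : l a = l' a) :
    H' (some a) = rat H H' * H (some a) := by
  have h1 := congrFun h0 a
  unfold OO at h1
  rw [if_pos ha.ge, if_pos ha.le] at h1
  simp only [Pi.zero_apply] at h1
  unfold rat
  have h2 : H none * H' (some a) = H' none * H (some a) := by linear_combination -h1
  field_simp
  linear_combination h2

/-- the dyadic sizes of proportional relations -/
lemma dl_prop {l l' : Fin (n+2) → ℕ} {H H' : Option (Fin (n+2)) → ZMod q} (hg : H none ≠ 0)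
    (h0 : OO l l' H H' = 0) {a : Fin (n+2)} (ha : l a ≤ l' a) :
    dl (rat H H' * H (some a)) ≤ dl (H' (some a)) + (l' a - l a) * La q := by
  rcases eq_or_lt_of_le ha with h1 | h1
  · rw [OO_eq hg h0 h1]
    exact Nat.le_add_right _ _
  · have h2 := dl_le_La' (rat H H' * H (some a))
    have h3 : 1 * La q ≤ (l' a - l a) * La q := Nat.mul_le_mul_right _ (by omega)
    omega

lemma sz_option (H : Option (Fin (n+2)) → ZMod q) : sz H = dl (H none) + ∑ a, dl (H (some a)) := by
  unfold sz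
  rw [Fintype.sum_option]

/-- no coordinate is larger: the multiple of `H` is short -/
lemma bad_of_le {l l' : Fin (n+2) → ℕ} {r K0 : ℕ} {H H' : Option (Fin (n+2)) → ZMod q}
    (hg : H none ≠ 0) (h0 : OO l l' H H' = 0) (hl : ∑ a, l' a + r < M * B)
    (hle : ∀ a, l a ≤ l' a) (hb : Bd (dm M B l' r) K0 H') :
    Bd (dm M B l r) K0 (fun o => rat H H' * H o) := by
  unfold Pool.Agent.Y258.Bd at hb ⊢
  rw [sz_option] at hb ⊢
  beta_reduce
  rw [rat_none hg]
  have h1 : ∑ a, dl (rat H H' * H (some a)) ≤ ∑ a, (dl (H' (some a)) + (l' a - l a) * La q) :=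
    sum_le_sum fun a _ => dl_prop hg h0 (hle a)
  rw [sum_add_distrib, ← sum_mul] at h1
  have h2 : ∑ a, (l' a - l a) + ∑ a, l a = ∑ a, l' a := by
    rw [← sum_add_distrib]
    exact sum_congr rfl fun a _ => by have := hle a; omega
  have h3 : dm M B l r = dm M B l' r + ∑ a, (l' a - l a) := by
    unfold dm; omega
  rw [h3, add_mul]
  omega

/-- one coordinate is larger: bound for the new coordinate -/
lemma sz_of_one {l l' : Fin (n+2) → ℕ} {r K0 : ℕ} {H H' : Option (Fin (n+2)) → ZMod q}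
    (hg : H none ≠ 0) (hg' : H' none ≠ 0)
    (h0 : OO l l' H H' = 0) (hl : ∑ a, l' a + r < M * B) (hl2 : ∑ a, l a + r < M * B)
    {a0 : Fin (n+2)} (ha0 : l' a0 < l a0)
    (hle : ∀ a, a ≠ a0 → l a ≤ l' a) (hb : Bd (dm M B l' r) K0 H') :
    sz (fun o => rat H H' * H o) + dl (H' (some a0)) + K0 ≤
      (dm M B l r + (l a0 - l' a0)) * La q := by
  unfold Pool.Agent.Y258.Bd at hb
  rw [sz_option] at hb ⊢
  beta_reduce
  rw [rat_none hg]
  rw [← Finset.add_sum_erase univ _ (mem_univ a0)] at hb ⊢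
  have e0 : H (some a0) = 0 := OO_lt hg' h0 ha0
  rw [e0, mul_zero, dl_zero', zero_add]
  have h1 : ∑ a ∈ univ.erase a0, dl (rat H H' * H (some a)) ≤
      ∑ a ∈ univ.erase a0, (dl (H' (some a)) + (l' a - l a) * La q) :=
    sum_le_sum fun a ha => dl_prop hg h0 (hle a (ne_of_mem_erase ha))
  rw [sum_add_distrib, ← sum_mul] at h1
  have h2 : ∑ a ∈ univ.erase a0, (l' a - l a) + ∑ a ∈ univ.erase a0, l a =
      ∑ a ∈ univ.erase a0, l' a := by
    rw [← sum_add_distrib]
    exact sum_congr rfl fun a ha => by have := hle a (ne_of_mem_erase ha); omega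
  have h3 := Finset.add_sum_erase univ l (mem_univ a0)
  have h4 := Finset.add_sum_erase univ l' (mem_univ a0)
  have h5 : dm M B l r + (l a0 - l' a0) =
      dm M B l' r + ∑ a ∈ univ.erase a0, (l' a - l a) := by
    unfold dm; omega
  rw [h5, add_mul]
  omega

open Classical in
/-- the number of the proportional short relations -/
lemma card_prop {l l' : Fin (n+2) → ℕ} {r K0 : ℕ} {H : Option (Fin (n+2)) → ZMod q}
    (hg : H none ≠ 0) (hl : ∑ a, l' a + r < M * B) (hl2 : ∑ a, l a + r < M * B)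
    {a0 : Fin (n+2)} (ha0 : l' a0 < l a0) (hle : ∀ a, a ≠ a0 → l a ≤ l' a) :
    (((univ : Finset (Option (Fin (n+2)) → ZMod q)).filter (fun H' => H' none ≠ 0 ∧
      Bd (dm M B l' r) K0 H' ∧ OO l l' H H' = 0)).card : ℝ) ≤
    ∑ s ∈ (univ : Finset (ZMod q)).filter (fun s => s ≠ 0),
      4 * ((2:ℝ) ^ ((dm M B l r + (l a0 - l' a0)) * La q) / 2 ^ (K0 + sz (fun o => s * H o))) := by
  set T := (dm M B l r + (l a0 - l' a0)) * La q with hT
  set 𝓗 := (univ : Finset (Option (Fin (n+2)) → ZMod q)).filter (fun H' => H' none ≠ 0 ∧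
      Bd (dm M B l' r) K0 H' ∧ OO l l' H H' = 0) with h𝓗
  have hmap : ∀ H' ∈ 𝓗, rat H H' ∈ (univ : Finset (ZMod q)).filter (fun s => s ≠ 0) := by
    intro H' hH'
    rw [h𝓗, mem_filter] at hH'
    rw [mem_filter]
    exact ⟨mem_univ _, rat_ne hg hH'.2.1⟩
  rw [card_eq_sum_card_fiberwise hmap]
  push_cast
  refine sum_le_sum fun s _ => ?_
  by_cases hs : K0 + sz (fun o => s * H o) ≤ T
  · have h1 : (𝓗.filter (fun H' => rat H H' = s)).card ≤
        ((univ : Finset (ZMod q)).filter (fun y => dl y ≤ T - (K0 + sz (fun o => s * H o)))).card := by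
      refine Finset.card_le_card_of_injOn (fun H' => H' (some a0)) ?_ ?_
      · intro H' hH'
        rw [coe_filter, Set.mem_ofPred_eq, h𝓗, mem_filter] at hH'
        obtain ⟨⟨_, hH1, hH2, hH3⟩, hH4⟩ := hH'
        have h2 := sz_of_one hg hH1 hH3 hl hl2 ha0 hle hH2
        rw [hH4] at h2
        simp only [coe_filter, mem_univ, true_and, Set.mem_ofPred_eq]
        omega
      · intro H' hH' H'' hH'' heq
        rw [coe_filter, Set.mem_ofPred_eq, h𝓗, mem_filter] at hH' hH''
        obtain ⟨⟨_, hH1, hH2, hH3⟩, hH4⟩ := hH'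
        obtain ⟨⟨_, hG1, hG2, hG3⟩, hG4⟩ := hH''
        funext o
        rcases o with _ | a
        · rw [← rat_none (H' := H') hg, ← rat_none (H' := H'') hg, hH4, hG4]
        · by_cases haa : a = a0
          · rw [haa]; exact heq
          · rcases eq_or_lt_of_le (hle a haa) with h5 | h5
            · rw [OO_eq hg hH3 h5, OO_eq hg hG3 h5, hH4, hG4]
            · rw [OO_gt hg hH3 h5, OO_gt hg hG3 h5]
    have h2 := h1.trans (card_dl_le _)
    have h3 : ((𝓗.filter (fun H' => rat H H' = s)).card : ℝ) ≤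
        4 * 2 ^ (T - (K0 + sz (fun o => s * H o))) := by exact_mod_cast h2
    refine h3.trans (le_of_eq ?_)
    rw [pow_sub₀ (2:ℝ) (by norm_num) hs]
    rfl
  · have h1 : 𝓗.filter (fun H' => rat H H' = s) = ∅ := by
      rw [filter_eq_empty_iff]
      intro H' hH' hrs
      rw [h𝓗, mem_filter] at hH'
      have h2 := sz_of_one hg hH'.2.1 hH'.2.2.2 hl hl2 ha0 hle hH'.2.2.1
      rw [hrs] at h2
      omega
    rw [h1, card_empty, Nat.cast_zero]
    positivity

end el

end Pool.Agent.Y833.SD
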